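import Mathlib
import Pool.Agent.Y1.CT.UnrelDefs

/-!
# Groups decomposed by the words in the Frobenius eigenvalues of an abelian variety: definitions
-/

set_option autoImplicit false

namespace Pool.Agent.Q29.FN

open Polynomial Pool.Agent.Y1.CT

/-- The ring of all algebraic integers in `ℂ`. -/
abbrev Ints : Type := integralClosure ℤ ℂ

/-- The multiset `w` consists of pairs of letters with the product `Q`. -/
def IsPaired (Q : Ints) (w : Multiset Ints) : Prop :=
  ∃ P : Multiset (Ints × Ints), (∀ x ∈ P, x.1 * x.2 = Q) ∧ w = P.map Prod.fst + P.map Prod.snd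

/-- `w` is a word of positive length: its letters are `s`-th powers of complex roots of the
polynomials `f i`. -/
def IsWord {I : Type} (f : I → ℤ[X]) (s : ℕ) (w : Multiset Ints) : Prop :=
  w ≠ 0 ∧ ∀ y ∈ w, ∃ (i : I) (z : ℂ), aeval z (f i) = 0 ∧ (y : ℂ) = z ^ s

/-- The polynomial `∏ (X - α π_w)`, `α ∈ Λ`, where `π_w` is the product of the letters of `w`. -/
noncomputable def wordPoly (Λ : Finset Ints) (w : Multiset Ints) : Ints[X] :=
  ∏ α ∈ Λ, (Polynomial.X - Polynomial.C (α * w.prod))

/-- The operator `e` is zero up to a factor: its image has a finite exponent. -/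
def Bounded {V : Type} [AddCommGroup V] [Module Ints V] (e : V →ₗ[Ints] V) : Prop :=
  ∃ b : Ints, b ≠ 0 ∧ ∀ x, b • e x = 0

/-- The group `H`, embedded by `ι` in `HO = H ⊗ Ints`, the set `Λ` of the eigenvalues of the
Frobenius on the cohomology of a variety `Z`, which are unrelated to the fields `K i`, and operators
`part j` (given by correspondences) for words `word j` of positive length; their sum is a nonzero
factor. The Frobenius `frob` of the field with `q ^ s` elements acts as `(q ^ s) ^ 2`, and a power of the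
product of the `frob - α π_w` annihilates the part of `w`, up to a factor. If `w` consists of pairs then the part is bounded. For `n ≠ 0` there is an `n`-divisible
subgroup modulo which the `n`-torsion is finite. -/
structure UnramifiedTheory {I : Type} (K : I → Type) [∀ i, Field (K i)] (q s : ℕ) (f : I → ℤ[X])
    where
  H : Type
  [addH : AddCommGroup H]
  HO : Type
  [addHO : AddCommGroup HO]
  [modHO : Module Ints HO]
  ι : H →+ HO
  ι_injective : Function.Injective ι
  Λ : Finset Ints
  unrelated : ∀ α ∈ Λ, Unrelated K (α : ℂ)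
  J : Type
  [finJ : Fintype J]
  word : J → Multiset Ints
  isWord : ∀ j, IsWord f s (word j)
  part : J → HO →ₗ[Ints] HO
  frob : HO →ₗ[Ints] HO
  sum_part : ∃ a : Ints, a ≠ 0 ∧ ∀ x, ∑ j, part j x = a • x
  frob_eq : ∀ x, frob x = ((q : Ints) ^ s) ^ 2 • x
  nilpotent : ∀ j, ∃ (m : ℕ) (b : Ints), b ≠ 0 ∧
    ∀ x, b • aeval frob (wordPoly Λ (word j) ^ m) (part j x) = 0
  lefschetz : ∀ j, IsPaired ((q : Ints) ^ s) (word j) → Bounded (part j)
  divisible : ∀ n : ℕ, n ≠ 0 → ∃ (D : AddSubgroup H) (E : Finset H),
    (∀ x ∈ D, ∃ y ∈ D, n • y = x) ∧ ∀ x : H, n • x = 0 → ∃ y ∈ E, x - y ∈ D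

attribute [instance] UnramifiedTheory.addH UnramifiedTheory.addHO UnramifiedTheory.modHO
  UnramifiedTheory.finJ

/-- `UnramifiedTimes K q f`: all groups of `UnramifiedTheory` are finite, over all fields with `q ^ s`
elements. -/
def UnramifiedTimes {I : Type} (K : I → Type) [∀ i, Field (K i)] (q : ℕ) (f : I → ℤ[X]) : Prop :=
  ∀ s : ℕ, 0 < s → ∀ T : UnramifiedTheory K q s f, Finite T.H

/-- The spaces `V` and `V0` (embedded by `incl`) of the product `A × Z` and `VZ` of `Z` in codimension
`c`, with the Frobenius operators (on the twisted spaces); `V0` contains the invariants of `V`; the set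
`Λ` of the eigenvalues of the Frobenius on the cohomology of `Z`, which are unrelated to the fields
`K i`; the operators `part j` of words `word j` of positive length: a vector of `V0` minus the sum of its
parts comes from `VZ`. A power of the product of the `(q ^ s) ^ c F - α π_w` annihilates the part of `w`.
The part is zero if `w` consists of pairs. -/
structure GenericPoint {I : Type} (K : I → Type) [∀ i, Field (K i)] (q s c : ℕ) (f : I → ℤ[X])
    where
  V : Type
  [addV : AddCommGroup V]
  [modV : Module ℂ V]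
  V0 : Type
  [addV0 : AddCommGroup V0]
  [modV0 : Module ℂ V0]
  VZ : Type
  [addVZ : AddCommGroup VZ]
  [modVZ : Module ℂ VZ]
  frob : V →ₗ[ℂ] V
  frob0 : V0 →ₗ[ℂ] V0
  frobZ : VZ →ₗ[ℂ] VZ
  incl : V0 →ₗ[ℂ] V
  pull : VZ →ₗ[ℂ] V
  incl_frob : ∀ x, incl (frob0 x) = frob (incl x)
  incl_injective : Function.Injective incl
  pull_frob : ∀ x, pull (frobZ x) = frob (pull x)
  pull_injective : Function.Injective pull
  weights : ∀ x, frob x = x → ∃ y, incl y = x
  Λ : Finset Ints
  unrelated : ∀ α ∈ Λ, Unrelated K (α : ℂ)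
  J : Type
  [finJ : Fintype J]
  word : J → Multiset Ints
  isWord : ∀ j, IsWord f s (word j)
  part : J → V0 →ₗ[ℂ] V0
  part_frob : ∀ j x, part j (frob0 x) = frob0 (part j x)
  rest : ∀ x, ∃ z, pull z = incl (x - ∑ j, part j x)
  nilpotent : ∀ j, ∃ m : ℕ, ∀ x, aeval ((((q : ℂ) ^ s) ^ c) • frob0)
    ((wordPoly Λ (word j)).map (algebraMap Ints ℂ) ^ m) (part j x) = 0
  algebraic : ∀ j, IsPaired ((q : Ints) ^ s) (word j) → ∀ x, part j x = 0

attribute [instance] GenericPoint.addV GenericPoint.modV GenericPoint.addV0 GenericPoint.modV0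
  GenericPoint.addVZ GenericPoint.modVZ GenericPoint.finJ

/-- `GenericTimes K q f`: pull-back is a bijection between the invariant classes at the generic points
of `Z` and of `A × Z`, in all codimensions `c` and over all fields with `q ^ s` elements. -/
def GenericTimes {I : Type} (K : I → Type) [∀ i, Field (K i)] (q : ℕ) (f : I → ℤ[X]) : Prop :=
  ∀ s c : ℕ, 0 < s → ∀ T : GenericPoint K q s c f,
    Set.BijOn T.pull {z | T.frobZ z = z} {x | T.frob x = x}

end Pool.Agent.Q29.FN
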