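import Mathlib
import Pool.Agent.Q29.FN.Defs
import Pool.Agent.Y1.CT.Kun

/-!
# Groups decomposed by the words in the Frobenius eigenvalues of an abelian variety: proofs

The lemmas `exists_nat`, `aeval_eigen`, `exponent_of_bounded` are due to helper59
(`Pool.Agent.Q59.TC.Fro`).
-/

set_option autoImplicit false
set_option linter.unusedVariables false

namespace Pool.Agent.Q29.FN

open Polynomial Pool.Agent.Y1.CT Pool.Agent.W484.HS

/-- Relations without unpaired letters. -/
theorem exists_pairs {X : Type} (val : X → ℂ) (Q ρ : ℂ) (hQ : Q ≠ 0)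
    (hpair : ExactPairK val Q ρ) : ∀ (n : ℕ) (w : Multiset X), Multiset.card w = n → ∀ c : ℤ,
    (w.map val).prod * ρ = Q ^ c →
    ∃ P : Multiset (X × X), (∀ x ∈ P, val x.1 * val x.2 = Q) ∧
      w = P.map Prod.fst + P.map Prod.snd := by
  classical
  intro n
  induction n using Nat.strong_induction_on with
  | _ n ih =>
    intro w hw c h
    rcases Nat.eq_zero_or_pos n with h0 | hn
    · rw [h0, Multiset.card_eq_zero] at hw
      exact ⟨0, by simp, by simp [hw]⟩
    · induction w using Quotient.inductionOn with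
      | _ l =>
        have hl : l.length = n := by simpa using hw
        have h1 := hpair n c 1 one_pos hn l hl (by
          rw [pow_one, pow_one]
          simpa using h)
        rw [List.pairwise_iff_forall_sublist] at h1
        push Not at h1
        obtain ⟨a, b, hab, hval⟩ := h1
        obtain ⟨l', hl'⟩ := hab.exists_perm_append
        have h2 : (l : Multiset X) = a ::ₘ b ::ₘ (l' : Multiset X) := by
          have := Multiset.coe_eq_coe.2 hl'
          simpa using this
        have hcard : Multiset.card (l' : Multiset X) = n - 2 := by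
          have h3 := congrArg Multiset.card h2
          simp only [Multiset.coe_card, Multiset.card_cons] at h3
          simp only [Multiset.coe_card]
          omega
        have hlt : n - 2 < n := by omega
        have h4 : (((l' : Multiset X)).map val).prod * ρ = Q ^ (c - 1) := by
          have h5 : ((l : Multiset X).map val).prod * ρ = Q ^ c := h
          rw [h2, Multiset.map_cons, Multiset.map_cons, Multiset.prod_cons, Multiset.prod_cons] at h5
          rw [zpow_sub_one₀ hQ, ← h5, ← hval]
          have ha : val a ≠ 0 := fun h => hQ (by rw [← hval, h, zero_mul])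
          have hb : val b ≠ 0 := fun h => hQ (by rw [← hval, h, mul_zero])
          field_simp
        obtain ⟨P, hP, hP2⟩ := ih (n - 2) hlt (l' : Multiset X) hcard (c - 1) h4
        refine ⟨(a, b) ::ₘ P, fun x hx => ?_, ?_⟩
        · rcases Multiset.mem_cons.1 hx with h | h
          · rw [h]
            exact hval
          · exact hP x h
        · change (l : Multiset X) = _
          rw [h2, hP2]
          simp only [Multiset.map_cons]
          rw [Multiset.cons_add, Multiset.add_cons]

/-- A resonance: the word consists of pairs. -/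
theorem paired_of_resonance {I : Type} {K : I → Type} [∀ i, Field (K i)] {q s : ℕ} {f : I → ℤ[X]}
    (hq : 1 < q) (hR : NoRel f q (Unrelated K)) (hs : 0 < s) {α : Ints}
    (hα : Unrelated K (α : ℂ)) {w : Multiset Ints} (hw : IsWord f s w) {c : ℕ}
    (h : α * w.prod = ((q : Ints) ^ s) ^ c) : IsPaired ((q : Ints) ^ s) w := by
  classical
  obtain ⟨-, hw⟩ := hw
  choose i z hz hzy using hw
  let X := {z : ℂ // ∃ i, aeval z (f i) = 0}
  let w' : Multiset X := w.attach.map fun y => ⟨z y.1 y.2, i y.1 y.2, hz y.1 y.2⟩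
  have hint : ∀ x : X, IsIntegral ℤ ((x : ℂ) ^ s) := by
    rintro ⟨x, j, hx⟩
    exact (IsIntegral.pow ⟨f j, hR.monic j, by rwa [aeval_def] at hx⟩ s)
  let g : X → Ints := fun x => ⟨(x : ℂ) ^ s, hint x⟩
  have hg : w'.map g = w := by
    rw [Multiset.map_map]
    conv_rhs => rw [← Multiset.attach_map_val w]
    refine Multiset.map_congr rfl fun y _ => Subtype.ext ?_
    exact (hzy y.1 y.2).symm
  have hq0 : (q : ℂ) ≠ 0 := by
    have : q ≠ 0 := by omega
    exact_mod_cast this
  have h1 : (w'.map fun x : X => (x : ℂ) ^ s).prod * (α : ℂ) = ((q : ℂ) ^ s) ^ (c : ℤ) := by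
    have h2 : (w'.map fun x : X => (x : ℂ) ^ s).prod = ((w.prod : Ints) : ℂ) := by
      have h3 : (w'.map g).map (algebraMap Ints ℂ) = w'.map fun x : X => (x : ℂ) ^ s := by
        rw [Multiset.map_map]
        rfl
      rw [← hg, ← h3, ← map_multiset_prod]
      rfl
    rw [h2, mul_comm, zpow_natCast]
    have h3 := congrArg (fun x : Ints => (x : ℂ)) h
    simpa using h3
  obtain ⟨P, hP, hP2⟩ := exists_pairs (fun x : X => (x : ℂ) ^ s) ((q : ℂ) ^ s) (α : ℂ)
    (pow_ne_zero _ hq0) (hR.pair s hs _ hα) _ w' rfl c h1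
  refine ⟨P.map (Prod.map g g), fun x hx => ?_, ?_⟩
  · obtain ⟨y, hy, rfl⟩ := Multiset.mem_map.1 hx
    refine Subtype.ext ?_
    have := hP y hy
    push_cast
    exact this
  · rw [← hg, hP2, Multiset.map_add, Multiset.map_map, Multiset.map_map, Multiset.map_map,
      Multiset.map_map]
    rfl

/-- An algebraic integer different from zero divides a natural number different from zero. -/
lemma exists_nat (b : Ints) (hb : b ≠ 0) : ∃ n : ℕ, n ≠ 0 ∧ ∃ c : Ints, c * b = (n : Ints) := by
  have h1 : IsAlgebraic ℤ b := (Algebra.IsIntegral.isIntegral b).isAlgebraic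
  obtain ⟨r, hr, c, hc⟩ := h1.exists_nonzero_dvd (mem_nonZeroDivisors_of_ne_zero hb)
  refine ⟨r.natAbs, Int.natAbs_ne_zero.mpr hr, ?_⟩
  rcases Int.natAbs_eq r with h | h
  · refine ⟨c, ?_⟩
    rw [mul_comm, ← hc, h]
    simp
  · refine ⟨-c, ?_⟩
    rw [neg_mul, mul_comm, ← hc, h]
    simp

/-- A polynomial in an operator with an eigenvector. -/
lemma aeval_eigen {O V : Type} [CommRing O] [AddCommGroup V] [Module O V] (f : V →ₗ[O] V) (a : O)
    (P : Polynomial O) {x : V} (hx : f x = a • x) : (Polynomial.aeval f P) x = P.eval a • x := by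
  by_cases h0 : x = 0
  · rw [h0, map_zero, smul_zero]
  · exact Module.End.aeval_apply_of_hasEigenvector
      ⟨Module.End.mem_eigenspace_iff.mpr hx, h0⟩

/-- A group which is a finite sum of bounded parts has a finite exponent. -/
lemma exponent_of_bounded {H V J : Type} [AddCommGroup H] [AddCommGroup V] [Module Ints V]
    [Fintype J] (ι : H →+ V) (hι : Function.Injective ι) (e : J → V →ₗ[Ints] V)
    (hsum : ∃ a : Ints, a ≠ 0 ∧ ∀ x, ∑ j, e j x = a • x) (he : ∀ j, Bounded (e j)) :
    ∃ n : ℕ, n ≠ 0 ∧ ∀ x : H, n • x = 0 := by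
  classical
  obtain ⟨a, ha, hs⟩ := hsum
  choose b hb hx using he
  obtain ⟨n, hn, c, hc⟩ := exists_nat ((∏ j, b j) * a)
    (mul_ne_zero (Finset.prod_ne_zero_iff.mpr fun j _ => hb j) ha)
  refine ⟨n, hn, fun x => hι ?_⟩
  rw [map_nsmul, map_zero, ← Nat.cast_smul_eq_nsmul Ints, ← hc, mul_smul, mul_smul, ← hs,
    Finset.smul_sum]
  rw [Finset.sum_eq_zero, smul_zero]
  intro j hj
  rw [← Finset.mul_prod_erase _ _ hj, mul_comm, mul_smul, hx, smul_zero]

theorem eval_wordPoly_ne {Λ : Finset Ints} {w : Multiset Ints} {a : Ints} (m : ℕ)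
    (h : ∀ α ∈ Λ, α * w.prod ≠ a) : (wordPoly Λ w ^ m).eval a ≠ 0 := by
  unfold wordPoly
  rw [Polynomial.eval_pow, Polynomial.eval_prod]
  refine pow_ne_zero _ (Finset.prod_ne_zero_iff.mpr fun α hα => ?_)
  rw [Polynomial.eval_sub, Polynomial.eval_X, Polynomial.eval_C, sub_ne_zero]
  exact (h α hα).symm

variable {I : Type} {K : I → Type} [∀ i, Field (K i)] {q : ℕ} {f : I → ℤ[X]}

/-- **Finiteness of the unramified groups.** -/
theorem unramifiedTimes (hq : 1 < q) (hR : NoRel f q (Unrelated K)) : UnramifiedTimes K q f := by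
  intro s hs T
  have hb : ∀ j, Bounded (T.part j) := by
    intro j
    by_cases h : ∃ α ∈ T.Λ, α * (T.word j).prod = ((q : Ints) ^ s) ^ 2
    · obtain ⟨α, hα, h⟩ := h
      exact T.lefschetz j (paired_of_resonance hq hR hs (T.unrelated α hα) (T.isWord j) h)
    · push Not at h
      obtain ⟨m, b, hb, hx⟩ := T.nilpotent j
      refine ⟨b * (wordPoly T.Λ (T.word j) ^ m).eval (((q : Ints) ^ s) ^ 2),
        mul_ne_zero hb (eval_wordPoly_ne m h), fun x => ?_⟩
      rw [mul_smul, ← aeval_eigen T.frob _ _ (T.frob_eq _)]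
      exact hx x
  obtain ⟨n, hn, hx⟩ := exponent_of_bounded T.ι T.ι_injective T.part T.sum_part hb
  obtain ⟨D, E, hD, hE⟩ := T.divisible n hn
  have h0 : ∀ x ∈ D, x = 0 := by
    intro x hxD
    obtain ⟨y, -, hy⟩ := hD x hxD
    rw [← hy, hx]
  refine Finite.of_surjective (fun y : E => (y : T.H)) fun x => ?_
  obtain ⟨y, hy, hxy⟩ := hE x (hx x)
  exact ⟨⟨y, hy⟩, (sub_eq_zero.mp (h0 _ hxy)).symm⟩

/-- **Invariant classes at the generic points.** -/
theorem genericTimes (hq : 1 < q) (hR : NoRel f q (Unrelated K)) : GenericTimes K q f := by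
  intro s c hs T
  refine ⟨fun z hz => ?_, T.pull_injective.injOn, fun x hx => ?_⟩
  · have h1 : T.frobZ z = z := hz
    have h2 : T.frob (T.pull z) = T.pull z := by rw [← T.pull_frob, h1]
    exact h2
  · have hx' : T.frob x = x := hx
    obtain ⟨y, rfl⟩ := T.weights x hx'
    have hy : T.frob0 y = y := T.incl_injective (by rw [T.incl_frob, hx'])
    obtain ⟨z, hz⟩ := T.rest y
    have h0 : ∑ j, T.part j y = 0 := Finset.sum_eq_zero fun j _ => by
      by_cases h : ∃ α ∈ T.Λ, α * (T.word j).prod = ((q : Ints) ^ s) ^ c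
      · obtain ⟨α, hα, h⟩ := h
        exact T.algebraic j (paired_of_resonance hq hR hs (T.unrelated α hα) (T.isWord j) h) y
      · push Not at h
        obtain ⟨m, hm⟩ := T.nilpotent j
        have h1 : ((((q : ℂ) ^ s) ^ c) • T.frob0) (T.part j y) =
            (((q : ℂ) ^ s) ^ c) • T.part j y := by
          rw [LinearMap.smul_apply, ← T.part_frob, hy]
        have h2 := hm y
        rw [aeval_eigen _ _ _ h1] at h2
        refine (smul_eq_zero.mp h2).resolve_left ?_
        have h3 : ((wordPoly T.Λ (T.word j)).map (algebraMap Ints ℂ) ^ m).eval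
            (((q : ℂ) ^ s) ^ c) =
            algebraMap Ints ℂ ((wordPoly T.Λ (T.word j) ^ m).eval (((q : Ints) ^ s) ^ c)) := by
          have h4 : (((q : ℂ) ^ s) ^ c) = algebraMap Ints ℂ (((q : Ints) ^ s) ^ c) := by
            rw [map_pow, map_pow, map_natCast]
          rw [← Polynomial.map_pow, h4, Polynomial.eval_map, Polynomial.eval₂_at_apply]
        rw [h3]
        intro h4
        refine eval_wordPoly_ne m h ?_
        exact Subtype.ext h4
    rw [h0, sub_zero] at hz
    refine ⟨z, ?_, hz⟩
    have h1 : T.frobZ z = z := T.pull_injective (by rw [T.pull_frob, hz, ← T.incl_frob, hy])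
    exact h1

end Pool.Agent.Q29.FN
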