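import Mathlib
import Pool.Agent.Q124.ZO.Defs
import Pool.Agent.Q124.ZO.Ana

/-!
# Zeta functions of schemes and the ranks of higher Chow groups

The theorem `zetaOrders` and its proof are due to helper124 (`Pool.Agent.Q124.ZO.Main`); it is copied
here in order to have a module with few imports.
-/

set_option autoImplicit false

open CategoryTheory AlgebraicGeometry

namespace Pool.Agent.Q29.FN

open Module Polynomial Pool.Agent.W495.FM Pool.Agent.Q124.TB Pool.Agent.Q124.ZO

section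

variable {V : Type} {S : Homology ℂ V} {X : V} {i j : ℤ}

/-- `TB`: the motivic homology is finite-dimensional, and its dimension is the one of the span of the
regulators. -/
theorem finite_of_tb (hS : IsHomology S) (h : TB S X) : Module.Finite ℚ (S.M X i j) ∧
    finrank ℚ (S.M X i j) = finrank ℂ (Submodule.span ℂ (Set.range (S.reg X i j))) := by
  obtain ⟨-, h2, -⟩ := h i j
  let _ : Module ℚ (S.E X i j) := Module.compHom _ (algebraMap ℚ ℂ)
  obtain ⟨reg, hreg⟩ := isAdd_hom (M := S.M X i j) (N := S.E X i j) (hS.add X i j)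
  have := hS.finite X i j
  have hfin : Module.Finite ℚ (S.M X i j) := by
    by_contra hinf
    have h3 : ∀ n : ℕ, ∃ x : Fin n → S.M X i j, LinearIndependent ℚ x := by
      intro n
      have h4 : (n : Cardinal) ≤ Module.rank ℚ (S.M X i j) := by
        have h5 : Cardinal.aleph0 ≤ Module.rank ℚ (S.M X i j) := by
          by_contra h6
          exact hinf (Module.rank_lt_aleph0_iff.1 (not_le.1 h6))
        exact (Cardinal.natCast_lt_aleph0).le.trans h5
      obtain ⟨s, hs, hs2⟩ := (le_rank_iff_exists_linearIndependent_finset.1 h4)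
      refine ⟨fun l => (s.equivFin.symm (Fin.cast hs.symm l) : S.M X i j), ?_⟩
      exact hs2.comp _ ((s.equivFin.symm.injective).comp (Fin.cast_injective _))
    obtain ⟨x, hx⟩ := h3 (finrank ℂ (S.E X i j) + 1)
    have h4 := (h2 _ x hx).fintype_card_le_finrank
    rw [Fintype.card_fin] at h4
    omega
  refine ⟨hfin, ?_⟩
  have := hfin
  have b := finBasis ℚ (S.M X i j)
  have h3 := h2 _ b b.linearIndependent
  have h4 : Submodule.span ℂ (Set.range (S.reg X i j)) =
      Submodule.span ℂ (Set.range fun l => S.reg X i j (b l)) := by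
    refine le_antisymm (Submodule.span_le.2 ?_) (Submodule.span_mono ?_)
    · rintro _ ⟨x, rfl⟩
      have h5 : S.reg X i j x = ∑ l, b.repr x l • S.reg X i j (b l) := by
        conv_lhs => rw [← b.sum_repr x]
        rw [← hreg, map_sum]
        refine Finset.sum_congr rfl fun l _ => ?_
        rw [map_smul, hreg]
      rw [h5]
      refine Submodule.sum_mem _ fun l _ => ?_
      have h6 : b.repr x l • S.reg X i j (b l) = (algebraMap ℚ ℂ (b.repr x l)) • S.reg X i j (b l) :=
        rfl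
      rw [h6]
      exact Submodule.smul_mem _ _ (Submodule.subset_span ⟨l, rfl⟩)
    · rintro _ ⟨l, rfl⟩
      exact ⟨b l, rfl⟩
  rw [h4, finrank_span_eq_card h3, Fintype.card_fin]

/-- `TB`: the dimension of the motivic homology is the multiplicity of an eigenvalue. -/
theorem mult_of_tb (hS : IsHomology S) (h : TB S X) {Q : ℕ} (hQ : 1 < Q)
    [FiniteDimensional ℂ (S.E X i 0)]
    (φ : S.E X i 0 ≃ₗ[ℂ] S.E X i 0) (g : S.E X i j ≃ₗ[ℂ] S.E X i 0)
    (hg : ∀ e, g (S.frob X i j e) = (Q : ℂ) ^ j • φ (g e)) :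
    (φ : S.E X i 0 →ₗ[ℂ] S.E X i 0).charpoly.rootMultiplicity ((Q : ℂ) ^ j)⁻¹ =
      finrank ℚ (S.M X i j) := by
  have hQ0 : (Q : ℂ) ≠ 0 := by
    have : Q ≠ 0 := by omega
    exact_mod_cast this
  have hQj : ((Q : ℂ) ^ j) ≠ 0 := zpow_ne_zero _ hQ0
  obtain ⟨h1, -, h3⟩ := h i j
  obtain ⟨ψ, hψ⟩ := hS.lin X i j
  set μ := ((Q : ℂ) ^ j)⁻¹
  have hg' : ∀ e, φ (g e) = μ • g (ψ e) := fun e => by
    rw [← hψ, hg, smul_smul, inv_mul_cancel₀ hQj, one_smul]
  have hiter : ∀ (r : ℕ) (v : S.E X i 0),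
      (((φ : S.E X i 0 →ₗ[ℂ] S.E X i 0) - μ • (1 : Module.End ℂ (S.E X i 0))) ^ r) v =
        (fun v => (φ : S.E X i 0 →ₗ[ℂ] S.E X i 0) v - μ • v)^[r] v := by
    intro r v
    rw [Module.End.pow_apply]
    rfl
  have key : Module.End.maxGenEigenspace (φ : S.E X i 0 →ₗ[ℂ] S.E X i 0) μ =
      (Submodule.span ℂ (Set.range (S.reg X i j))).map (g : S.E X i j →ₗ[ℂ] S.E X i 0) := by
    ext v
    rw [Module.End.mem_maxGenEigenspace, Submodule.mem_map]
    constructor
    · rintro ⟨r, hr⟩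
      obtain ⟨e, rfl⟩ := g.surjective v
      rw [hiter] at hr
      have h4 := iterate_shift ψ (φ : S.E X i 0 →ₗ[ℂ] S.E X i 0) (g : S.E X i j →ₗ[ℂ] S.E X i 0) μ
        hg' r e
      rw [show (g : S.E X i j →ₗ[ℂ] S.E X i 0) e = g e from rfl, hr] at h4
      have h5 : (fun v => ψ v - v)^[r] e = 0 := by
        rcases smul_eq_zero.1 h4.symm with h6 | h6
        · exact absurd h6 (pow_ne_zero _ (inv_ne_zero hQj))
        · exact (LinearEquiv.map_eq_zero_iff g).1 h6
      refine ⟨e, ?_, rfl⟩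
      rw [← h1, hψ]
      refine fixed_of_iterate ψ (fun e he => ?_) r e h5
      rw [← hψ]
      refine h3 e ?_
      rw [hψ, hψ]
      exact he
    · rintro ⟨e, he, rfl⟩
      rw [← h1, hψ] at he
      refine ⟨1, ?_⟩
      rw [hiter, Function.iterate_one]
      change φ (g e) - μ • g e = 0
      rw [hg', he, sub_self]
  rw [← LinearMap.finrank_maxGenEigenspace_eq, key, (finite_of_tb hS h).2]
  exact LinearEquiv.finrank_map_eq g _

end

/-- Reindexing of an alternating sum. -/
theorem sum_reindex (a : ℤ → ℕ) (d : ℕ) (j : ℤ) (h0 : ∀ i, i < 0 → a i = 0)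
    (h1 : ∀ i, 2 * (d : ℤ) < i → a i = 0) (h2 : ∀ i, i < 2 * j → a i = 0) :
    ∑ i ∈ Finset.range (2 * d + 1), (-1 : ℤ) ^ (i + 1) * (a i : ℤ) =
      -∑ m ∈ Finset.range (2 * d + 1 - 2 * j).toNat, (-1 : ℤ) ^ m * (a (2 * j + m) : ℤ) := by
  have h3 : ∀ i : ℤ, a i ≠ 0 → 0 ≤ i ∧ i ≤ 2 * d ∧ 2 * j ≤ i := fun i hi =>
    ⟨by by_contra h; exact hi (h0 i (by omega)), by by_contra h; exact hi (h1 i (by omega)),
      by by_contra h; exact hi (h2 i (by omega))⟩
  rw [← Finset.sum_neg_distrib]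
  refine Finset.sum_bij_ne_zero (fun i _ _ => ((i : ℤ) - 2 * j).toNat) ?_ ?_ ?_ ?_
  · intro i hi hne
    have h4 : a i ≠ 0 := by
      intro h
      apply hne
      rw [h]
      simp
    have h5 := h3 _ h4
    rw [Finset.mem_range] at hi ⊢
    omega
  · intro i hi hne i' hi' hne' heq
    have h4 : a i ≠ 0 := by
      intro h
      apply hne
      rw [h]
      simp
    have h4' : a i' ≠ 0 := by
      intro h
      apply hne'
      rw [h]
      simp
    have h5 := h3 _ h4
    have h5' := h3 _ h4'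
    omega
  · intro m hm hne
    have h4 : a (2 * j + m) ≠ 0 := by
      intro h
      apply hne
      rw [h]
      simp
    have h5 := h3 _ h4
    have h6 : ((2 * j + m).toNat : ℤ) = 2 * j + m := Int.toNat_of_nonneg h5.1
    refine ⟨(2 * j + m).toNat, ?_, ?_, ?_⟩
    · rw [Finset.mem_range]
      omega
    · rw [h6]
      exact mul_ne_zero (pow_ne_zero _ (by norm_num)) (by exact_mod_cast h4)
    · rw [h6]
      omega
  · intro i hi hne
    have h4 : a i ≠ 0 := by
      intro h
      apply hne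
      rw [h]
      simp
    have h5 := h3 _ h4
    have h6 : (((i : ℤ) - 2 * j).toNat : ℤ) = i - 2 * j := Int.toNat_of_nonneg (by omega)
    rw [h6, show 2 * j + ((i : ℤ) - 2 * j) = i by ring, ← neg_mul]
    congr 1
    have h7 : ((-1 : ℤ) ^ (i + 1)) = -(-1) ^ i := by
      rw [pow_succ]
      ring
    rw [h7, neg_inj]
    obtain ⟨b, hb⟩ : ∃ b : ℤ, (i : ℤ) - 2 * j = i + 2 * b := ⟨-j, by ring⟩
    have h8 : ∃ c : ℕ, i = ((i : ℤ) - 2 * j).toNat + 2 * c ∨
        ((i : ℤ) - 2 * j).toNat = i + 2 * c := by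
      rcases le_total 0 j with h | h
      · exact ⟨j.toNat, Or.inl (by omega)⟩
      · exact ⟨(-j).toNat, Or.inr (by omega)⟩
    obtain ⟨c, hc | hc⟩ := h8
    · conv_lhs => rw [hc]
      rw [pow_add, pow_mul]
      simp
    · rw [hc, pow_add, pow_mul]
      simp

/-- `TB` and the trace formula imply the conjectures of Bloch and Soulé. -/
theorem zetaOrders {V : Type} {S : Homology ℂ V} {sp : V → Scheme.{0}} {X : V} {Q : ℕ}
    (hS : IsHomology S) (hneg : ∀ (i j : ℤ), i < 2 * j → ∀ x : S.M X i j, x = 0) (h : TB S X)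
    (hQ : 1 < Q) (hT : HasTraceFormula S sp Q X) : ZetaOrders S sp X := by
  obtain ⟨d, P, hP, htw, hE', σ, hσ⟩ := hT
  have hE : ∀ i j : ℤ, i < 0 ∨ 2 * d < i → ∀ e : S.E X i j, e = 0 := fun i j hij e => by
    have := hE' i j hij
    exact Subsingleton.elim _ _
  choose φ hφ hPφ using hP
  have hfin : ∀ i, FiniteDimensional ℂ (S.E X i 0) := fun i => hS.finite X i 0
  choose c hc hdet using fun i => det_eq (φ i)
  set p : ℤ → ℂ[X] := fun i => (φ i : S.E X i 0 →ₗ[ℂ] S.E X i 0).charpoly with hp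
  have hp0 : ∀ i, p i ≠ 0 := fun i => (LinearMap.charpoly_monic _).ne_zero
  set G : ℂ → ℂ := fun s => ∏ i ∈ Finset.range (2 * d + 1),
    (c i * (p i).eval ((Q : ℂ) ^ (-s))) ^ ((-1 : ℤ) ^ (i + 1)) with hG
  have hQ0 : (Q : ℂ) ≠ 0 := by
    have : Q ≠ 0 := by omega
    exact_mod_cast this
  have hmer : ∀ (i : ℕ) (z : ℂ), MeromorphicAt (fun s : ℂ => c i * (p i).eval ((Q : ℂ) ^ (-s))) z := by
    intro i z
    have hd : ∀ s : ℂ, HasDerivAt (fun s : ℂ => (Q : ℂ) ^ (-s))
        ((Q : ℂ) ^ (-s) * Complex.log Q * (-1)) s := fun s =>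
      (hasDerivAt_neg s).const_cpow (Or.inl hQ0)
    have han : AnalyticAt ℂ (fun s : ℂ => (Q : ℂ) ^ (-s)) z := by
      refine DifferentiableOn.analyticAt (s := Set.univ) (fun s _ =>
        (hd s).differentiableAt.differentiableWithinAt) Filter.univ_mem
    refine AnalyticAt.meromorphicAt (analyticAt_const.mul ?_)
    exact (AnalyticOnNhd.eval_polynomial (p i) _ (Set.mem_univ _)).comp han
  have hGmer : MeromorphicOn G Set.univ := by
    intro z _
    rw [hG]
    refine MeromorphicAt.fun_prod fun i _ => ?_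
    exact (hmer i z).fun_zpow _
  have hGeq : ∀ s : ℂ, σ < s.re → G s = eulerProduct (sp X) s := by
    intro s hs
    rw [hσ s hs]
    refine Finset.prod_congr rfl fun i _ => ?_
    rw [hPφ, ← hdet]
    rfl
  refine ⟨⟨G, hGmer, σ, hGeq⟩, fun j => ⟨_, ⟨fun m => (finite_of_tb hS h).1,
    (2 * d + 1 - 2 * j).toNat, fun m hm => subsingleton_of_forall_eq 0 fun x => ?_, rfl⟩, fun F hF => ?_⟩⟩
  · by_contra hx
    have h1 := (h (2 * j + m) j).2.1 1 (fun _ => x) (linearIndependent_unique_iff.2 hx)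
    have h2 : S.reg X (2 * j + m) j x ≠ 0 := linearIndependent_unique_iff.1 h1
    exact h2 (hE (2 * j + m) j (Or.inr (by omega)) _)
  · obtain ⟨hFm, τ, hτ⟩ := hF
    have h1 : meromorphicOrderAt F (j : ℂ) = meromorphicOrderAt G (j : ℂ) := by
      refine order_unique hFm hGmer (σ := max σ τ) (fun s hs => ?_) _
      rw [hτ s ((le_max_right _ _).trans_lt hs), hGeq s ((le_max_left _ _).trans_lt hs)]
    have h2 : meromorphicOrderAt G (j : ℂ) = ∑ i ∈ Finset.range (2 * d + 1),
        (((-1 : ℤ) ^ (i + 1) * (finrank ℚ (S.M X i j) : ℤ) : ℤ) : WithTop ℤ) := by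
      rw [hG, meromorphicOrderAt_fun_prod fun i _ => (hmer i _).fun_zpow _]
      refine Finset.sum_congr rfl fun i _ => ?_
      obtain ⟨g, hg'⟩ := htw i j
      have hg : ∀ e, g (S.frob X i j e) = (Q : ℂ) ^ j • φ i (g e) := fun e => by rw [hg', ← hφ i]
      refine (meromorphicOrderAt_zpow (hmer i _)).trans ?_
      rw [order_eval (hp0 i) (hc i) hQ j, mult_of_tb hS h hQ (φ i) g hg]
      norm_cast
    have hfinM : ∀ i, FiniteDimensional ℚ (S.M X i j) := fun i => (finite_of_tb hS h).1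
    have h3 := sum_reindex (fun i => finrank ℚ (S.M X i j)) d j (fun i hi => ?_) (fun i hi => ?_)
      (fun i hi => ?_)
    · rw [h1, h2, ← h3]
      push_cast
      rfl
    all_goals
      rw [finrank_zero_iff_forall_zero]
      intro x
    · by_contra hx
      have h1 := (h i j).2.1 1 (fun _ => x) (linearIndependent_unique_iff.2 hx)
      have h2 : S.reg X i j x ≠ 0 := linearIndependent_unique_iff.1 h1
      exact h2 (hE i j (Or.inl hi) _)
    · by_contra hx
      have h1 := (h i j).2.1 1 (fun _ => x) (linearIndependent_unique_iff.2 hx)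
      have h2 : S.reg X i j x ≠ 0 := linearIndependent_unique_iff.1 h1
      exact h2 (hE i j (Or.inr hi) _)
    · exact hneg i j hi x

end Pool.Agent.Q29.FN
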